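import Pool.Agent.N929.AC.Stm
import Pool.Agent.N45.AC.VIT
import Pool.Agent.N189.AC.Omg
import Pool.Agent.N562.AC.EXP
import Pool.Agent.N700.AC.Few
import Pool.Agent.N288.AC.ANG
import Pool.Agent.N186.AC.Bnd
import Pool.Agent.N738.AC.ASM
import Pool.Agent.N547.EG.SEL

/-!
# Analytic continuation for systems of local moves
-/

namespace Pool.Agent.N929.AC

/-- **Analytic continuation** of the generating functions of systems of local moves -/
theorem s_ac : S_AC :=
  Pool.Agent.N738.AC.ac Pool.Agent.N45.AC.vit Pool.Agent.N189.AC.omg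
    (Pool.Agent.N700.AC.few Pool.Agent.N547.EG.Sel.sel) Pool.Agent.N288.AC.ang
    (Pool.Agent.N186.AC.bnd Pool.Agent.N562.AC.expT)
    (Pool.Agent.N186.AC.cnv Pool.Agent.N562.AC.expT) Pool.Agent.N738.AC.grw

/-- the domain is open and contains the disc of convergence -/
theorem s_omg : S_OMG := Pool.Agent.N189.AC.omg

end Pool.Agent.N929.AC
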