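import Pool.Agent.N929.AC.Ac
import Pool.Agent.N929.EG.Dom

/-!
# Analytic continuation of the generating functions of self-avoiding walks in the plane
-/

set_option autoImplicit false
set_option linter.unusedVariables false

namespace Pool.Agent.N929.AC

open Finset Filter Topology Pool.Agent.N929.EG
open scoped Classical

noncomputable section

variable {A : ℤ × ℤ → ℤ × ℤ → Prop}

theorem dom_ac {Z : TH966.AK.Rule A} {μ K : ℝ} {a : ℕ}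
    (G : Pool.Agent.R965.HP.Gr Z.sys μ K a) (ha : 1 ≤ a) :
    ∃ c : ℝ, 0 < c ∧ ∀ (C₀ : ℝ) (p : ℕ), 0 ≤ C₀ → ∃ C : ℝ, 0 < C ∧ ∀ g : ℤ × ℤ → ℝ,
      (∀ n, ∀ w ∈ TH966.AK.Kw A n, 0 ≤ g (TH966.AK.lst w) ∧
        g (TH966.AK.lst w) ≤ C₀ * ((n : ℝ) + 1) ^ p) →
      ∃ f : ℂ → ℂ, DifferentiableOn ℂ f (Om c μ Z.s) ∧
        (∀ z : ℂ, μ * ‖z‖ < 1 → HasSum (fun n => (TH966.AK.WF A g n : ℂ) * z ^ n) (f z)) ∧
        ∀ z ∈ Om c μ Z.s, z ≠ 0 → cs Z.s z < 1 →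
          Summable (fun n => TH966.AK.WF A g n * xx c μ Z.s z ^ n) ∧
          ‖f z‖ ≤ C + ∑' n, TH966.AK.WF A g n * xx c μ Z.s z ^ n := by
  obtain ⟨Y, y1, y2, y3, y4, y5⟩ := sys2 Z G.hs
  obtain ⟨K₁, hK₁, hG, hl⟩ := grD G ha y2 y3 y4
  obtain ⟨c, hc, h⟩ := s_ac _ _ Y μ _ hG
  refine ⟨c, hc, fun C₀ p hC₀ => ?_⟩
  obtain ⟨C, hC, h'⟩ := h C₀ p hC₀
  refine ⟨C, hC, fun g hg => ?_⟩
  obtain ⟨f, h1, h2, h3⟩ := h' (fun w => g (TH966.AK.lst w))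
    (fun n w hw => hg n w (by rw [← y2]; exact hw)) (lst_invD y2 y3 y5 g)
  have e : ∀ n, aa Y (fun w => g (TH966.AK.lst w)) n = TH966.AK.WF A g n := by
    intro n
    unfold aa
    rw [y2]
    rfl
  rw [y1] at h1 h3
  simp only [e] at h2 h3
  exact ⟨f, h1, h2, h3⟩

end

end Pool.Agent.N929.AC
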