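import Pool.Agent.N929.AC.Grid
import Pool.Agent.H982R3.Plain

/-!
# Analytic continuation: planar lattices, in final form
-/

set_option autoImplicit false
set_option linter.unusedVariables false

namespace Pool.Agent.N929.AC

open Finset Filter Topology Pool.Agent.N929.EG
open scoped Classical

noncomputable section

open TH966.AK Pool.Agent.R965.HP

/-- properties of the domain -/
theorem dom_facts {c μ : ℝ} {s : ℕ} (hc : 0 < c) (hμ : 1 ≤ μ) (hs : 1 ≤ s) :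
    IsOpen (Om c μ s) ∧ IsPreconnected (Om c μ s) ∧ (∀ z : ℂ, μ * ‖z‖ < 1 → z ∈ Om c μ s) ∧
    ∀ z : ℂ, μ * ‖z‖ = 1 → z ^ s ≠ (‖z‖ : ℂ) ^ s → z ∈ Om c μ s := by
  obtain ⟨h1, h2, h3, -⟩ := s_omg c μ s hc hμ hs
  exact ⟨h1, h2, h3, fun z hz h => (mem_Om hc hz h).1⟩

theorem full_ac2 (L : H982.Lat) {A : ℤ × ℤ → ℤ × ℤ → Prop} (Z : Rule A) (hs1 : 1 ≤ Z.s)
    {φ : ℤ × ℤ → ℤ × ℤ} {R : ℕ → ℤ × ℤ → Prop} (H : @H982.Coord L A φ R)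
    (hp : ∃ (M0 : ℕ) (ρ C0 : ℝ), 1 ≤ M0 ∧ 0 ≤ ρ ∧ ρ < @H982.mu L ∧ ∀ n : ℕ,
      (((Kw A n).filter (fun w => M0 * (Z.B w).card ≤ n)).card : ℝ) ≤ C0 * ρ ^ n)
    {μ : ℝ} (hμ : μ = ⨅ n : {n : ℕ // 1 ≤ n}, (((wks A n.1).ncard : ℝ) ^ ((1 : ℝ) / (n.1 : ℝ))))
    {s : ℕ} (hs : Z.s = s) :
    1 ≤ μ ∧ ∃ c : ℝ, 0 < c ∧
      (IsOpen (Om c μ s) ∧ IsPreconnected (Om c μ s) ∧ (∀ z : ℂ, μ * ‖z‖ < 1 → z ∈ Om c μ s) ∧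
        ∀ z : ℂ, μ * ‖z‖ = 1 → z ^ s ≠ (‖z‖ : ℂ) ^ s → z ∈ Om c μ s) ∧
      (∃ f : ℂ → ℂ, DifferentiableOn ℂ f (Om c μ s) ∧
        ∀ z : ℂ, μ * ‖z‖ < 1 → HasSum (fun n => (((wks A n).ncard : ℕ) : ℂ) * z ^ n) (f z)) ∧
      ∀ (C₀ : ℝ) (p : ℕ), 0 ≤ C₀ → ∃ C : ℝ, 0 < C ∧ ∀ g : ℤ × ℤ → ℝ,
      (∀ x, 0 ≤ g x ∧ g x ≤ C₀ * (1 + |(x.1 : ℝ)| + |(x.2 : ℝ)|) ^ p) →
      ∃ f : ℂ → ℂ, DifferentiableOn ℂ f (Om c μ s) ∧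
        (∀ z : ℂ, μ * ‖z‖ < 1 →
          HasSum (fun n => ((∑ᶠ ω ∈ wks A n, g (ω (Fin.last n)) : ℝ) : ℂ) * z ^ n) (f z)) ∧
        ∀ z ∈ Om c μ s, z ≠ 0 → cs s z < 1 →
          Summable (fun n => (∑ᶠ ω ∈ wks A n, g (ω (Fin.last n))) * xx c μ s z ^ n) ∧
          ‖f z‖ ≤ C + ∑' n, (∑ᶠ ω ∈ wks A n, g (ω (Fin.last n))) * xx c μ s z ^ n := by
  have hμ' : μ = @H982.mu L := by
    rw [hμ, ← @H982.mu_eq_iInf L _ _ _ H]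
    rfl
  subst hs
  obtain ⟨h1, c, hc, h⟩ := full_ac L Z hs1 H hp
  rw [← hμ'] at h1 h
  refine ⟨h1, c, hc, dom_facts hc h1 hs1, ?_, h⟩
  obtain ⟨C, hC, h'⟩ := h 1 0 zero_le_one
  obtain ⟨f, h2, h3, -⟩ := h' (fun _ => 1) (fun x => by simp)
  refine ⟨f, h2, fun z hz => ?_⟩
  have h4 := h3 z hz
  have e : ∀ n, ∑ᶠ ω ∈ wks A n, (1 : ℝ) = ((wks A n).ncard : ℝ) := by
    intro n
    rw [sum_wks Z (fun _ => (1 : ℝ)) n, card_wks Z]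
    unfold WF
    simp
  simp only [e] at h4
  push_cast at h4
  exact h4

end

end Pool.Agent.N929.AC
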