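import Pool.Agent.N929.AC.Pl
import Pool.Agent.N929.EG.SizeP

/-!
# Analytic continuation: the three planar lattices
-/

set_option autoImplicit false
set_option linter.unusedVariables false

namespace Pool.Agent.N929.AC

open Finset Filter Topology Pool.Agent.N929.EG
open scoped Classical

noncomputable section

open TH966.AK Pool.Agent.R965.HP

theorem full_ac (L : H982.Lat) {A : ℤ × ℤ → ℤ × ℤ → Prop} (Z : Rule A) (hs1 : 1 ≤ Z.s)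
    {φ : ℤ × ℤ → ℤ × ℤ} {R : ℕ → ℤ × ℤ → Prop} (H : @H982.Coord L A φ R)
    (hp : ∃ (M0 : ℕ) (ρ C0 : ℝ), 1 ≤ M0 ∧ 0 ≤ ρ ∧ ρ < @H982.mu L ∧ ∀ n : ℕ,
      (((Kw A n).filter (fun w => M0 * (Z.B w).card ≤ n)).card : ℝ) ≤ C0 * ρ ^ n) :
    1 ≤ @H982.mu L ∧
    ∃ c : ℝ, 0 < c ∧ ∀ (C₀ : ℝ) (p : ℕ), 0 ≤ C₀ → ∃ C : ℝ, 0 < C ∧ ∀ g : ℤ × ℤ → ℝ,
      (∀ x, 0 ≤ g x ∧ g x ≤ C₀ * (1 + |(x.1 : ℝ)| + |(x.2 : ℝ)|) ^ p) →
      ∃ f : ℂ → ℂ, DifferentiableOn ℂ f (Om c (@H982.mu L) Z.s) ∧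
        (∀ z : ℂ, @H982.mu L * ‖z‖ < 1 →
          HasSum (fun n => ((∑ᶠ ω ∈ wks A n, g (ω (Fin.last n)) : ℝ) : ℂ) * z ^ n) (f z)) ∧
        ∀ z ∈ Om c (@H982.mu L) Z.s, z ≠ 0 → cs Z.s z < 1 →
          Summable (fun n => (∑ᶠ ω ∈ wks A n, g (ω (Fin.last n))) *
            xx c (@H982.mu L) Z.s z ^ n) ∧
          ‖f z‖ ≤ C + ∑' n, (∑ᶠ ω ∈ wks A n, g (ω (Fin.last n))) *
            xx c (@H982.mu L) Z.s z ^ n := by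
  obtain ⟨K, G⟩ := full_gr L Z hs1 H hp
  refine ⟨G.hμ, ?_⟩
  have e2 : AD A (fun _ => True) = A := by
    funext p q
    unfold AD
    simp
  have h := dom_ac G one_le_two
  have hz : (ruleD Z (fun _ => True)).s = Z.s := rfl
  rw [hz, e2] at h
  obtain ⟨c, hc, h⟩ := h
  refine ⟨c, hc, fun C₀ p hC₀ => ?_⟩
  obtain ⟨C, hC, h'⟩ := h (C₀ * 2 ^ p) p (by positivity)
  refine ⟨C, hC, fun g hg => ?_⟩
  obtain ⟨f, h1, h2, h3⟩ := h' g (fun n w hw => by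
    refine ⟨(hg _).1, (hg _).2.trans ?_⟩
    obtain ⟨h4, h5⟩ := lst_le Z hw
    have h4' : |((lst w).1 : ℝ)| ≤ n := by exact_mod_cast h4
    have h5' : |((lst w).2 : ℝ)| ≤ n := by exact_mod_cast h5
    have h6 : (1 + |((lst w).1 : ℝ)| + |((lst w).2 : ℝ)|) ^ p ≤ (2 * ((n : ℝ) + 1)) ^ p := by
      refine pow_le_pow_left₀ (by positivity) ?_ p
      linarith
    calc C₀ * (1 + |((lst w).1 : ℝ)| + |((lst w).2 : ℝ)|) ^ p ≤ C₀ * (2 * ((n : ℝ) + 1)) ^ p :=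
          mul_le_mul_of_nonneg_left h6 hC₀
      _ = _ := by rw [mul_pow]; ring)
  have e : ∀ n, ∑ᶠ ω ∈ wks A n, g (ω (Fin.last n)) = WF A g n := fun n => sum_wks Z g n
  simp only [e]
  exact ⟨f, h1, h2, h3⟩

end

end Pool.Agent.N929.AC
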