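import Pool.Agent.N929.AC.Prim
import Pool.Agent.N353.AC.PRIM
import Pool.Agent.N226.KZ.Cor

/-!
# Analytic continuation: lattice knots
-/

set_option autoImplicit false
set_option linter.unusedVariables false

namespace Pool.Agent.N929.AC

open Finset Filter Topology KN Pool.Agent.N929.EG Pool.Agent.N226.KZ
open scoped Classical

noncomputable section

theorem knot_ac {Q : List Dir → Prop} (hQ : KClass Q) (hne : ∃ w, SAP w ∧ Q w) :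
    1 ≤ gr Q ∧ ∃ δ : ℝ, 0 < δ ∧
    (IsOpen (Om δ (gr Q) 2) ∧ IsPreconnected (Om δ (gr Q) 2) ∧
      (∀ z : ℂ, gr Q * ‖z‖ < 1 → z ∈ Om δ (gr Q) 2) ∧
      ∀ z : ℂ, gr Q * ‖z‖ = 1 → z ^ 2 ≠ (‖z‖ : ℂ) ^ 2 → z ∈ Om δ (gr Q) 2) ∧
    ∃ F : ℂ → ℂ, Ext δ (gr Q) 2 (fun n => pq Q n) F := by
  obtain ⟨Y, H⟩ := sysQ Q hQ
  obtain ⟨φ, R, hφ⟩ := exists_rate hQ hne
  obtain ⟨K₁, hK₁, G⟩ := gr_sys hQ hne H R hφ
  have hμ : 1 ≤ gr Q := G.one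
  obtain ⟨δ, hδ, h⟩ := s_ac _ _ Y (gr Q) _ G
  rw [H.s] at h
  obtain ⟨h1, h2, h3, -⟩ := s_omg δ (gr Q) 2 hδ hμ (by norm_num)
  refine ⟨hμ, δ, hδ, ⟨h1, h2, h3, fun z hz hz2 => (mem_Om hδ hz hz2).1⟩, ?_⟩
  obtain ⟨C, hC, h'⟩ := h 1 0 zero_le_one
  obtain ⟨f, f1, f2, -⟩ := h' (fun _ => 1) (fun n w hw => by norm_num)
    (fun n w hw q hq => rfl)
  have f3 : Ext δ (gr Q) 2 (aa Y (fun _ => 1)) f := ⟨f1, f2⟩
  refine ext_prim Pool.Agent.N353.AC.prim hδ hμ (by norm_num) f3 3 (fun n hn => ?_)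
  unfold aa pq
  rw [sum_const, nsmul_eq_mul, mul_one, card_eq H hn]
  push_cast
  rfl

end

end Pool.Agent.N929.AC
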