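import Pool.Agent.N929.AC.App

/-!
# Analytic continuation: the circle of convergence
-/

set_option autoImplicit false
set_option linter.unusedVariables false

namespace Pool.Agent.N929.AC

open Finset Filter Topology Pool.Agent.N929.EG

noncomputable section

theorem eq_norm_of_re {w : ℂ} (h : ‖w‖ ≤ w.re) : w = (‖w‖ : ℂ) := by
  have h1 : w.re ≤ ‖w‖ := Complex.re_le_norm w
  have h2 : w.re = ‖w‖ := le_antisymm h1 h
  have h3 : w.im = 0 := by
    have h4 := Complex.sq_norm w
    rw [Complex.normSq_apply, h2] at h4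
    have h5 : w.im * w.im = 0 := by nlinarith
    exact mul_self_eq_zero.1 h5
  apply Complex.ext
  · rw [Complex.ofReal_re]
    exact h2
  · rw [Complex.ofReal_im]
    exact h3

/-- every point of the circle of convergence at which `z ^ s` is not real and positive is in the
domain -/
theorem mem_Om {c μ : ℝ} {s : ℕ} (hc : 0 < c) {z : ℂ} (hz : μ * ‖z‖ = 1)
    (h : z ^ s ≠ (‖z‖ : ℂ) ^ s) : z ∈ Om c μ s ∧ cs s z < 1 := by
  have hz0 : z ≠ 0 := by
    rintro rfl
    rw [norm_zero, mul_zero] at hz
    norm_num at hz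
  have hn : 0 < ‖z‖ ^ s := pow_pos (norm_pos_iff.2 hz0) s
  have h1 : cs s z < 1 := by
    unfold cs
    rw [div_lt_one hn]
    by_contra hcon
    push Not at hcon
    apply h
    have h2 : ‖z ^ s‖ ≤ (z ^ s).re := by rw [norm_pow]; exact hcon
    have h3 := eq_norm_of_re h2
    rw [h3, norm_pow]
    push_cast
    rfl
  refine ⟨?_, h1⟩
  show μ * ‖z‖ < 1 + c * (1 - cs s z)
  rw [hz]
  have : 0 < c * (1 - cs s z) := mul_pos hc (by linarith)
  linarith

end

end Pool.Agent.N929.AC
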