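import Pool.Agent.N929.AC.Prim
import Pool.Agent.N929.AC.Grid2
import Pool.Agent.N929.EZ.Poly
import Pool.Agent.H739K.F2

/-!
# Analytic continuation: self-avoiding polygons of the square lattice
-/

set_option autoImplicit false
set_option linter.unusedVariables false

namespace Pool.Agent.N929.AC

open Finset Filter Topology Pool.Agent.N929.EG
open scoped Classical

noncomputable section

/-- the indicator function of the neighbours of the origin -/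
def gn (x : ℤ × ℤ) : ℝ := if (x.1 : ℝ) ^ 2 + (x.2 : ℝ) ^ 2 = 1 then 1 else 0

theorem wks_sq (n : ℕ) : TH966.AK.wks (fun p q : ℤ × ℤ => |p.1 - q.1| + |p.2 - q.2| = 1) n =
    {ω | Pool.Agent.H976R2.IsSAW n ω} := by
  ext ω
  constructor
  · rintro ⟨h0, h1, h2⟩
    refine ⟨h0, fun i => ?_, h1⟩
    have := h2 i
    rw [abs_sub_comm, abs_sub_comm (ω i.succ).2]
    exact this
  · rintro ⟨h0, h2, h1⟩
    refine ⟨h0, h1, fun i => ?_⟩
    have := h2 i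
    rw [abs_sub_comm, abs_sub_comm (ω i.succ).2] at this
    exact this

theorem sum_gn (n : ℕ) :
    ∑ᶠ ω ∈ TH966.AK.wks (fun p q : ℤ × ℤ => |p.1 - q.1| + |p.2 - q.2| = 1) n,
      gn (ω (Fin.last n)) = ((Pool.Agent.H739K.KP n).card : ℝ) := by
  rw [wks_sq, Pool.Agent.H976R2.finsum_saw, Pool.Agent.H739K.KP, card_filter]
  push_cast
  refine sum_congr rfl fun w hw => ?_
  rw [Pool.Agent.H976R2.pth_last hw]
  rfl

theorem KP_even {n : ℕ} (hn : n % 2 = 0) : (Pool.Agent.H739K.KP n).card = 0 := by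
  rw [card_eq_zero, eq_empty_iff_forall_notMem]
  intro w hw
  rw [Pool.Agent.H739K.KP, mem_filter, Pool.Agent.H976R2.mem_SW] at hw
  obtain ⟨⟨h1, -⟩, h2⟩ := hw
  have h3 := Pool.Agent.H739K.F2aux.par w
  unfold Pool.Agent.H976R2.sq at h2
  have h4 : Pool.Agent.H976R2.wX w ^ 2 + Pool.Agent.H976R2.wY w ^ 2 = 1 := by exact_mod_cast h2
  rw [h1] at h3
  have h5 : (Pool.Agent.H976R2.wX w + Pool.Agent.H976R2.wY w) % 2 = 0 := by omega
  obtain ⟨k, hk⟩ : ∃ k, Pool.Agent.H976R2.wX w + Pool.Agent.H976R2.wY w = 2 * k :=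
    ⟨(Pool.Agent.H976R2.wX w + Pool.Agent.H976R2.wY w) / 2, by omega⟩
  have h6 : Pool.Agent.H976R2.wX w = 2 * k - Pool.Agent.H976R2.wY w := by omega
  rw [h6] at h4
  have h7 : 2 * (2 * k ^ 2 - 2 * k * Pool.Agent.H976R2.wY w + Pool.Agent.H976R2.wY w ^ 2) = 1 := by
    linarith
  omega

/-- the coefficients of the generating function of polygons -/
def pv (m : ℕ) : ℝ := if Even m ∧ 4 ≤ m then H981.PP (m / 2) else 0

theorem pv_eq (n : ℕ) (hn : 3 ≤ n) :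
    pv (n + 1) = ((Pool.Agent.H739K.KP n).card : ℝ) / (2 * ((n : ℝ) + 1)) := by
  unfold pv
  rcases Nat.even_or_odd n with he | ho
  · rw [if_neg (fun h => by have := h.1; rw [Nat.even_add_one] at this; exact this he),
      KP_even (Nat.even_iff.1 he)]
    simp
  · obtain ⟨k, rfl⟩ := ho
    have e : 2 * k + 1 = 2 * (k + 1) - 1 := by omega
    rw [if_pos ⟨by rw [Nat.even_add_one]; simp, by omega⟩]
    have h := Pool.Agent.N929.EZ.KP_card (N := k + 1) (by omega)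
    rw [← e] at h
    rw [h]
    have e2 : (2 * k + 1 + 1) / 2 = k + 1 := by omega
    rw [e2]
    push_cast
    have hk : (0 : ℝ) < (k : ℝ) + 1 := by positivity
    field_simp
    ring

theorem poly_ac (hprim : S_PRIM) : ∃ μ : ℝ, 1 ≤ μ ∧
    Tendsto (fun n : ℕ => ((({ω | Pool.Agent.H976R2.IsSAW n ω}.ncard : ℕ) : ℝ)) ^ (1 / (n : ℝ)))
      atTop (𝓝 μ) ∧
    ∃ δ : ℝ, 0 < δ ∧
    (IsOpen (Om δ μ 2) ∧ IsPreconnected (Om δ μ 2) ∧ (∀ z : ℂ, μ * ‖z‖ < 1 → z ∈ Om δ μ 2) ∧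
      ∀ z : ℂ, μ * ‖z‖ = 1 → z ^ 2 ≠ (‖z‖ : ℂ) ^ 2 → z ∈ Om δ μ 2) ∧
    ∃ F : ℂ → ℂ, Ext δ μ 2 pv F := by
  obtain ⟨μ, hμ⟩ : ∃ μ : ℝ, μ = ⨅ n : {n : ℕ // 1 ≤ n},
    (((TH966.AK.wks (fun p q : ℤ × ℤ => |p.1 - q.1| + |p.2 - q.2| = 1) n.1).ncard : ℝ) ^
      ((1 : ℝ) / (n.1 : ℝ))) := ⟨_, rfl⟩
  obtain ⟨hμ1, δ, hδ, hdom, -, h⟩ := full_ac2 H982P.sqL Pool.Agent.R965.HP.Sq.rule
    (show 1 ≤ 2 by norm_num) H982P.coord_sq Pool.Agent.R965.HP.sq_poor hμ (s := 2) rfl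
  have hμ2 : μ = @H982.mu H982P.sqL := by
    rw [hμ, ← @H982.mu_eq_iInf H982P.sqL _ _ _ H982P.coord_sq]
    rfl
  refine ⟨μ, hμ1, ?_, δ, hδ, hdom, ?_⟩
  · have h1 := @H982.tendsto_root H982P.sqL
    rw [← hμ2] at h1
    refine h1.congr fun n => ?_
    rw [← wks_sq]
    congr 1
    exact (@H982.ncard_walks H982P.sqL _ _ _ H982P.coord_sq n).symm
  · obtain ⟨C, -, h'⟩ := h 1 0 zero_le_one
    obtain ⟨f, f1, f2, -⟩ := h' gn (fun x => by
      unfold gn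
      split_ifs <;> norm_num)
    have f3 : Ext δ μ 2 (fun n => ((Pool.Agent.H739K.KP n).card : ℝ)) f := by
      refine ⟨f1, fun z hz => ?_⟩
      have f4 := f2 z hz
      have e : ∀ n, ∑ᶠ ω ∈ TH966.AK.wks Pool.Agent.R965.HP.Sq.A n, gn (ω (Fin.last n)) =
          ((Pool.Agent.H739K.KP n).card : ℝ) := sum_gn
      simp only [e] at f4
      exact f4
    exact ext_prim hprim hδ hμ1 (by norm_num) f3 3 (fun n hn => pv_eq n hn)

end

end Pool.Agent.N929.AC
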