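import Mathlib

/-!
# Primitives of power series on star shaped domains: statement
-/

set_option autoImplicit false

namespace Pool.Agent.N929.AC

open Finset Filter Topology

/-- PRIM: a holomorphic function on an open set which is star shaped with respect to `0` has a
primitive there, which on a disc around `0` is the primitive of the power series -/
def S_PRIM : Prop :=
  ∀ (Ω : Set ℂ) (R : ℝ) (u : ℕ → ℂ) (f : ℂ → ℂ), IsOpen Ω →
    (∀ z ∈ Ω, ∀ t : ℝ, 0 ≤ t → t ≤ 1 → (t : ℂ) * z ∈ Ω) → 0 < R → Metric.ball (0 : ℂ) R ⊆ Ω →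
    DifferentiableOn ℂ f Ω → (∀ z ∈ Metric.ball (0 : ℂ) R, HasSum (fun n => u n * z ^ n) (f z)) →
    ∃ F : ℂ → ℂ, DifferentiableOn ℂ F Ω ∧ (∀ z ∈ Ω, HasDerivAt F (f z) z) ∧ F 0 = 0 ∧
      ∀ z ∈ Metric.ball (0 : ℂ) R, HasSum (fun n => u n / ((n : ℂ) + 1) * z ^ (n + 1)) (F z)

end Pool.Agent.N929.AC
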