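import Pool.Agent.N929.AC.Pl
import Pool.Agent.N929.AC.StmP

/-!
# Analytic continuation: dividing the coefficients by `n`
-/

set_option autoImplicit false
set_option linter.unusedVariables false

namespace Pool.Agent.N929.AC

open Finset Filter Topology Pool.Agent.N929.EG

noncomputable section

/-- `f` extends the power series with coefficients `u` -/
def Ext (c μ : ℝ) (s : ℕ) (u : ℕ → ℝ) (f : ℂ → ℂ) : Prop :=
  DifferentiableOn ℂ f (Om c μ s) ∧ ∀ z : ℂ, μ * ‖z‖ < 1 → HasSum (fun n => (u n : ℂ) * z ^ n) (f z)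

theorem cs_smul {s : ℕ} (t : ℝ) (ht : 0 < t) (z : ℂ) : cs s ((t : ℂ) * z) = cs s z := by
  unfold cs
  rw [mul_pow, norm_mul, Complex.norm_real, Real.norm_of_nonneg ht.le, mul_pow]
  rw [← Complex.ofReal_pow, Complex.re_ofReal_mul]
  exact mul_div_mul_left _ _ (pow_pos ht s).ne'

theorem om_star {c μ : ℝ} {s : ℕ} (hμ : 1 ≤ μ) (h0 : (0 : ℂ) ∈ Om c μ s) (z : ℂ)
    (hz : z ∈ Om c μ s) (t : ℝ) (ht0 : 0 ≤ t) (ht1 : t ≤ 1) : (t : ℂ) * z ∈ Om c μ s := by
  rcases ht0.eq_or_lt with rfl | ht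
  · simpa using h0
  · show μ * ‖(t : ℂ) * z‖ < 1 + c * (1 - cs s ((t : ℂ) * z))
    rw [cs_smul t ht, norm_mul, Complex.norm_real, Real.norm_of_nonneg ht0]
    have h1 : μ * ‖z‖ < 1 + c * (1 - cs s z) := hz
    have h2 : t * ‖z‖ ≤ ‖z‖ := mul_le_of_le_one_left (norm_nonneg z) ht1
    have h3 : μ * (t * ‖z‖) ≤ μ * ‖z‖ := mul_le_mul_of_nonneg_left h2 (by linarith)
    linarith

theorem ext_prim (hprim : S_PRIM) {c μ : ℝ} {s : ℕ} (hc : 0 < c) (hμ : 1 ≤ μ) (hs : 1 ≤ s)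
    {u v : ℕ → ℝ} {f : ℂ → ℂ} (h : Ext c μ s u f) (N : ℕ)
    (hv : ∀ n, N ≤ n → v (n + 1) = u n / (2 * ((n : ℝ) + 1))) :
    ∃ F : ℂ → ℂ, Ext c μ s v F := by
  obtain ⟨o1, o2, o3, -⟩ := s_omg c μ s hc hμ hs
  have hμ0 : 0 < μ := by linarith
  have h0 : (0 : ℂ) ∈ Om c μ s := o3 0 (by simp)
  have hball : ∀ z : ℂ, z ∈ Metric.ball (0 : ℂ) (1 / μ) ↔ μ * ‖z‖ < 1 := by
    intro z
    rw [mem_ball_zero_iff, lt_div_iff₀ hμ0, mul_comm]
  obtain ⟨F, f1, -, -, f2⟩ := hprim (Om c μ s) (1 / μ) (fun n => (u n : ℂ)) f o1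
    (fun z hz t ht0 ht1 => om_star hμ h0 z hz t ht0 ht1) (by positivity)
    (fun z hz => o3 z ((hball z).1 hz)) h.1 (fun z hz => h.2 z ((hball z).1 hz))
  obtain ⟨w, hw⟩ : ∃ w : ℕ → ℂ, w = fun m => if m = 0 then 0 else (u (m - 1) : ℂ) / (2 * (m : ℂ)) :=
    ⟨_, rfl⟩
  obtain ⟨d, hd⟩ : ∃ d : ℕ → ℂ, d = fun m => (v m : ℂ) - w m := ⟨_, rfl⟩
  refine ⟨fun z => F z / 2 + ∑ m ∈ range (N + 1), d m * z ^ m, ?_, fun z hz => ?_⟩
  · refine (f1.div_const 2).add ?_
    fun_prop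
  · have g1 := f2 z ((hball z).2 hz)
    have g2 : HasSum (fun m => w m * z ^ m) (F z / 2) := by
      rw [← hasSum_nat_add_iff' 1]
      simp only [Finset.range_one, Finset.sum_singleton]
      have g3 := g1.div_const 2
      have e : w 0 * z ^ 0 = 0 := by rw [hw]; simp
      rw [e, sub_zero]
      have e2 : (fun n => w (n + 1) * z ^ (n + 1)) =
          fun n => (u n : ℂ) / ((n : ℂ) + 1) * z ^ (n + 1) / 2 := by
        funext n
        have e3 : ((n : ℂ) + 1) ≠ 0 := Nat.cast_add_one_ne_zero n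
        rw [hw]
        simp only [Nat.add_eq_zero_iff, one_ne_zero, and_false, if_false, Nat.add_sub_cancel]
        push_cast
        field_simp
      rw [e2]
      exact g3
    have g4 : HasSum (fun m => d m * z ^ m) (∑ m ∈ range (N + 1), d m * z ^ m) := by
      refine hasSum_sum_of_ne_finset_zero fun m hm => ?_
      rw [mem_range, not_lt] at hm
      obtain ⟨n, rfl⟩ : ∃ n, m = n + 1 := ⟨m - 1, by omega⟩
      have e : d (n + 1) = 0 := by
        rw [hd, hw]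
        simp only [Nat.add_eq_zero_iff, one_ne_zero, and_false, if_false, Nat.add_sub_cancel]
        rw [hv n (by omega)]
        push_cast
        ring
      rw [e, zero_mul]
    have g5 := g2.add g4
    have e : (fun m => w m * z ^ m + d m * z ^ m) = fun m => (v m : ℂ) * z ^ m := by
      funext m
      rw [hd]
      ring
    rw [e] at g5
    exact g5

end

end Pool.Agent.N929.AC
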