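import Pool.Agent.N929.EG.Stm

/-!
# Analytic continuation of generating functions of systems of local moves (project AC): statements

The generating function `∑ a n z ^ n` of the weighted numbers of objects of a system of local moves
(`TS` of project EG) with a pattern theorem extends analytically across every point of its circle of
convergence at which `z ^ s` is not real and positive.
-/

set_option autoImplicit false
set_option linter.unusedVariables false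

namespace Pool.Agent.N929.AC

open Finset Filter Topology Pool.Agent.N929.EG
open scoped Classical

noncomputable section

/-- `cos (arg (z ^ s))` -/
def cs (s : ℕ) (z : ℂ) : ℝ := (z ^ s).re / ‖z‖ ^ s

/-- the domain to which the generating function extends -/
def Om (c μ : ℝ) (s : ℕ) : Set ℂ := {z | μ * ‖z‖ < 1 + c * (1 - cs s z)}

/-- the comparison point inside the interval of convergence -/
def xx (c μ : ℝ) (s : ℕ) (z : ℂ) : ℝ := (1 - c * (1 - cs s z)) / μ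

variable {α σ : Type}

/-- the weighted number of objects of size `n` -/
def aa (Y : TS α σ) (F : α → ℝ) (n : ℕ) : ℝ := ∑ w ∈ Y.K n, F w

/-- the objects of size at most `N` without occupied slots in `L` -/
def Co (Y : TS α σ) (L : Finset σ) (N : ℕ) : Finset α :=
  ((range (N + 1)).biUnion Y.K).filter (fun w => Oc Y L w = ∅)

/-- the generating function of the objects of the classes of `Co` -/
def PL (Y : TS α σ) (F : α → ℝ) (L : Finset σ) (N : ℕ) (z : ℂ) : ℂ :=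
  ∑ w ∈ Co Y L N, (F w : ℂ) * z ^ Y.len w * (1 + z ^ Y.s) ^ (Sl Y L w).card

/-- VIT: a locally bounded sequence of holomorphic functions which converges on a nonempty open
set converges everywhere to a holomorphic function (Vitali) -/
def S_VIT : Prop :=
  ∀ (Ω D : Set ℂ), IsOpen Ω → IsPreconnected Ω → IsOpen D → D.Nonempty → D ⊆ Ω →
    ∀ (P : ℕ → ℂ → ℂ), (∀ N, DifferentiableOn ℂ (P N) Ω) →
    (∀ z ∈ Ω, ∃ r B : ℝ, 0 < r ∧ ∀ N, ∀ z' ∈ Metric.ball z r ∩ Ω, ‖P N z'‖ ≤ B) →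
    (∀ z ∈ D, ∃ l, Tendsto (fun N => P N z) atTop (𝓝 l)) →
    ∃ f : ℂ → ℂ, DifferentiableOn ℂ f Ω ∧ ∀ z ∈ Ω, Tendsto (fun N => P N z) atTop (𝓝 (f z))

/-- OMG: the domain is open and connected, and contains the disc of convergence -/
def S_OMG : Prop :=
  ∀ (c μ : ℝ) (s : ℕ), 0 < c → 1 ≤ μ → 1 ≤ s →
    IsOpen (Om c μ s) ∧ IsPreconnected (Om c μ s) ∧ (∀ z : ℂ, μ * ‖z‖ < 1 → z ∈ Om c μ s) ∧
    (∀ z : ℂ, |cs s z| ≤ 1) ∧ ∀ z : ℂ, z ≠ 0 → ContinuousAt (cs s) z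

/-- EXP: the expansion of `PL` in powers of `z` -/
def S_EXP : Prop :=
  ∀ (α σ : Type) (Y : TS α σ) (F : α → ℝ),
    (∀ n, ∀ w ∈ Y.K n, ∀ q ∈ Y.S w, F (Y.ins w q) = F w) → ∀ L : Finset σ, Fam Y L → ∀ N : ℕ,
      ∃ T : Finset α, (∀ w ∈ T, w ∈ Y.K (Y.len w)) ∧ (∀ n ≤ N, Y.K n ⊆ T) ∧
        ∀ z : ℂ, PL Y F L N z = ∑ w ∈ T, (F w : ℂ) * z ^ Y.len w

/-- FEW: for every `N` a finite set of families without conflicts such that on average few objects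
have few slots in the family -/
def S_FEW : Prop :=
  ∀ (α σ : Type) (Y : TS α σ) (μ : ℝ) (φ : ℕ → ℝ), Gr Y μ φ →
    ∃ c₀ θ C : ℝ, 0 < c₀ ∧ 0 < θ ∧ θ < 1 ∧ 0 < C ∧ ∀ N : ℕ,
      ∃ (ι : Type) (_ : Fintype ι) (_ : Nonempty ι) (Λ : ι → Finset σ), (∀ i, Fam Y (Λ i)) ∧
        ∀ m ≤ N, ∑ i, (((Y.K m).filter
          (fun w => ((Sl Y (Λ i) w).card : ℝ) < c₀ * m)).card : ℝ) ≤
            C * (θ * μ) ^ m * Fintype.card ι

/-- ANG: the inequalities for the point `xx` -/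
def S_ANG : Prop :=
  ∀ (μ c₀ : ℝ) (s : ℕ), 1 ≤ μ → 0 < c₀ → 1 ≤ s → ∃ k : ℝ, 0 < k ∧ ∃ c₁ : ℝ, 0 < c₁ ∧
    ∀ c : ℝ, 0 < c → c ≤ c₁ → ∀ z ∈ Om c μ s, 0 < xx c μ s z ∧ (xx c μ s z < ‖z‖ →
      ‖z‖ ≤ xx c μ s z * Real.exp (c₀ * (k * (1 - cs s z))) ∧
      ‖1 + z ^ s‖ ≤ (1 + xx c μ s z ^ s) * Real.exp (-(k * (1 - cs s z))))

/-- BND: the bound for one family -/
def S_BND : Prop :=
  ∀ (α σ : Type) (Y : TS α σ) (F : α → ℝ),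
    (∀ n, ∀ w ∈ Y.K n, ∀ q ∈ Y.S w, F (Y.ins w q) = F w) → (∀ n, ∀ w ∈ Y.K n, 0 ≤ F w) →
    ∀ L : Finset σ, Fam Y L → ∀ N : ℕ, ∀ (z : ℂ) (x : ℝ), 0 ≤ x →
      Summable (fun n => aa Y F n * x ^ n) →
      (‖z‖ ≤ x → ‖PL Y F L N z‖ ≤ ∑' n, aa Y F n * x ^ n) ∧
      (∀ c₀ δ : ℝ, 0 < c₀ → 0 ≤ δ → ‖z‖ ≤ x * Real.exp (c₀ * δ) →
        ‖1 + z ^ Y.s‖ ≤ (1 + x ^ Y.s) * Real.exp (-δ) →
        ‖PL Y F L N z‖ ≤ (∑' n, aa Y F n * x ^ n) +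
          ∑ m ∈ range (N + 1), ∑ w ∈ (Y.K m).filter
            (fun w => ((Sl Y L w).card : ℝ) < c₀ * m),
            F w * (‖z‖ * (1 + ‖z‖ ^ Y.s) ^ c₀) ^ m)

/-- CNV: `PL` is close to the generating function inside the disc of convergence -/
def S_CNV : Prop :=
  ∀ (α σ : Type) (Y : TS α σ) (F : α → ℝ),
    (∀ n, ∀ w ∈ Y.K n, ∀ q ∈ Y.S w, F (Y.ins w q) = F w) → (∀ n, ∀ w ∈ Y.K n, 0 ≤ F w) →
    ∀ L : Finset σ, Fam Y L → ∀ N : ℕ, ∀ z : ℂ, Summable (fun n => aa Y F n * ‖z‖ ^ n) →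
      ‖PL Y F L N z - ∑ n ∈ range (N + 1), (aa Y F n : ℂ) * z ^ n‖ ≤
        ∑' n, aa Y F (n + (N + 1)) * ‖z‖ ^ (n + (N + 1))

/-- GRW: the weighted numbers of objects are at most of order `μ ^ n`, exponentially -/
def S_GRW : Prop :=
  ∀ (α σ : Type) (Y : TS α σ) (μ : ℝ) (φ : ℕ → ℝ), Gr Y μ φ →
    ∀ (F : α → ℝ) (C₀ : ℝ) (p : ℕ), 0 ≤ C₀ →
      (∀ n, ∀ w ∈ Y.K n, 0 ≤ F w ∧ F w ≤ C₀ * ((n : ℝ) + 1) ^ p) →
      ∀ x : ℝ, 0 ≤ x → μ * x < 1 → Summable (fun n => aa Y F n * x ^ n)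

/-- AC: analytic continuation -/
def S_AC : Prop :=
  ∀ (α σ : Type) (Y : TS α σ) (μ : ℝ) (φ : ℕ → ℝ), Gr Y μ φ →
    ∃ c : ℝ, 0 < c ∧ ∀ (C₀ : ℝ) (p : ℕ), 0 ≤ C₀ → ∃ C : ℝ, 0 < C ∧ ∀ F : α → ℝ,
      (∀ n, ∀ w ∈ Y.K n, 0 ≤ F w ∧ F w ≤ C₀ * ((n : ℝ) + 1) ^ p) →
      (∀ n, ∀ w ∈ Y.K n, ∀ q ∈ Y.S w, F (Y.ins w q) = F w) →
      ∃ f : ℂ → ℂ, DifferentiableOn ℂ f (Om c μ Y.s) ∧
        (∀ z : ℂ, μ * ‖z‖ < 1 → HasSum (fun n => (aa Y F n : ℂ) * z ^ n) (f z)) ∧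
        ∀ z ∈ Om c μ Y.s, z ≠ 0 → cs Y.s z < 1 →
          Summable (fun n => aa Y F n * xx c μ Y.s z ^ n) ∧
          ‖f z‖ ≤ C + ∑' n, aa Y F n * xx c μ Y.s z ^ n

end

end Pool.Agent.N929.AC
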