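import Pool.Agent.N929.AC.Grid2
import Pool.Agent.N929.EG.Three
import Pool.Agent.N546.EG.CNT3

/-!
# Analytic continuation: self-avoiding walks on `ℤ³`
-/

set_option autoImplicit false
set_option linter.unusedVariables false

namespace Pool.Agent.N929.AC

open Finset Filter Topology KN TH966.KO TH966.KO.BR Pool.Agent.N929.EG
open scoped Classical

noncomputable section

theorem sum_eq3 (n : ℕ) (G : (Fin 3 → ℤ) → ℝ) :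
    ∑ᶠ ω ∈ {ω | IsSAW n ω}, G (ω (Fin.last n)) = ∑ u ∈ SS n, G (E (pos u)) := by
  rw [← finsum_mem_eq_of_bijOn (f := fun w => G (E (pos w))) (wk n) (bij n) ?_,
    finsum_mem_coe_finset]
  intro w hw
  rw [wk_last (mem_SS.1 (Finset.mem_coe.1 hw)).1]

theorem three_ac : 1 ≤ μ ∧ ∃ δ : ℝ, 0 < δ ∧
    (IsOpen (Om δ μ 2) ∧ IsPreconnected (Om δ μ 2) ∧ (∀ z : ℂ, μ * ‖z‖ < 1 → z ∈ Om δ μ 2) ∧
      ∀ z : ℂ, μ * ‖z‖ = 1 → z ^ 2 ≠ (‖z‖ : ℂ) ^ 2 → z ∈ Om δ μ 2) ∧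
    ∀ (C₀ : ℝ) (p : ℕ), 0 ≤ C₀ → ∃ C : ℝ, 0 < C ∧ ∀ g : (Fin 3 → ℤ) → ℝ,
      (∀ x, 0 ≤ g x ∧ g x ≤ C₀ * (1 + norm2 x) ^ p) →
      ∃ f : ℂ → ℂ, DifferentiableOn ℂ f (Om δ μ 2) ∧
        (∀ z : ℂ, μ * ‖z‖ < 1 → HasSum (fun n =>
          ((∑ᶠ ω ∈ {ω | IsSAW n ω}, g (ω (Fin.last n)) : ℝ) : ℂ) * z ^ n) (f z)) ∧
        ∀ z ∈ Om δ μ 2, z ≠ 0 → cs 2 z < 1 →
          Summable (fun n => (∑ᶠ ω ∈ {ω | IsSAW n ω}, g (ω (Fin.last n))) * xx δ μ 2 z ^ n) ∧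
          ‖f z‖ ≤ C + ∑' n, (∑ᶠ ω ∈ {ω | IsSAW n ω}, g (ω (Fin.last n))) * xx δ μ 2 z ^ n := by
  obtain ⟨Y, H⟩ := sys3 Pool.Agent.N546.EG.cnt3
  obtain ⟨K, K₁, hK, hK₁, G⟩ := H.gr
  have hμ : 1 ≤ μ := G.one
  obtain ⟨δ, hδ, h⟩ := s_ac _ _ Y μ _ G
  rw [H.s] at h
  refine ⟨hμ, δ, hδ, dom_facts hδ hμ (by norm_num), fun C₀ p hC₀ => ?_⟩
  obtain ⟨C, hC, h'⟩ := h C₀ p hC₀
  refine ⟨C, hC, fun g hg => ?_⟩
  obtain ⟨f, h1, h2, h3⟩ := h' (fun w => g (E (e3 w))) (fun n w hw => by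
    obtain ⟨u, hu, rfl⟩ := (H.K n w).1 hw
    rw [e3_path]
    refine ⟨(hg _).1, (hg _).2.trans ?_⟩
    have h4 := norm2_le u
    rw [(mem_SS.1 hu).1] at h4
    refine mul_le_mul_of_nonneg_left (pow_le_pow_left₀ ?_ ?_ p) hC₀
    · linarith [norm2_nonneg (E (pos u))]
    · linarith) (fun n w hw q hq => by simp only [H.e3 n w hw q hq])
  have e : ∀ n, ∑ᶠ ω ∈ {ω | IsSAW n ω}, g (ω (Fin.last n)) = aa Y (fun w => g (E (e3 w))) n := by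
    intro n
    unfold aa
    rw [sum_eq3, sum_Y H]
    simp only [e3_path]
  simp only [e]
  exact ⟨f, h1, h2, h3⟩

end

end Pool.Agent.N929.AC
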